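import Pool.Agent.Lib.MP_5fcb94_co.Defs

namespace Pool.Agent.Lib.MP_5fcb94_co

/-- Computable list of the out-neighbours of a node. -/
def outs (g k : ℕ) (u : Node) : List Node :=
  (List.range g).filterMap fun a =>
    if (a + fstEntry u * g) / k < g ∧ (u = none → 1 ≤ a ∧ 1 ≤ (a + fstEntry u * g) / k) ∧
        (k * a + sndEntry u) % g = (a + fstEntry u * g) / k ∧
        (k * a + sndEntry u - (a + fstEntry u * g) / k) / g < k
    then some (some ((a + fstEntry u * g) % k,
      (k * a + sndEntry u - (a + fstEntry u * g) / k) / g))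
    else none

theorem edge_iff {g k : ℕ} (hk : 0 < k) (hg : 0 < g) (u v : Node) :
    Edge g k u v ↔ v ∈ outs g k u := by
  unfold outs
  rw [List.mem_filterMap]
  constructor
  · rintro ⟨b, a, ha, hb, hn, hmod, t, s, ht, hs, rfl, h1, h2⟩
    have e1 : a + fstEntry u * g = k * b + t := by
      zify; linarith
    have e2 : k * a + sndEntry u = b + s * g := by
      zify; linarith
    have hb' : (a + fstEntry u * g) / k = b := by
      rw [e1, Nat.mul_add_div hk, Nat.div_eq_of_lt ht, add_zero]
    have ht' : (a + fstEntry u * g) % k = t := by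
      rw [e1, Nat.mul_add_mod, Nat.mod_eq_of_lt ht]
    have hm : (k * a + sndEntry u) % g = b := by
      rw [e2, Nat.add_mul_mod_self_right, Nat.mod_eq_of_lt hb]
    have hs' : (k * a + sndEntry u - b) / g = s := by
      rw [e2, Nat.add_sub_cancel_left, Nat.mul_div_cancel _ hg]
    refine ⟨a, List.mem_range.2 ha, ?_⟩
    rw [hb', hs', ht']
    rw [if_pos ⟨hb, hn, hm, hs⟩]
  · rintro ⟨a, ha, h⟩
    have ha := List.mem_range.1 ha
    split_ifs at h with hc
    obtain ⟨hb, hn, hm, hs⟩ := hc
    have hv := Option.some.inj h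
    set b := (a + fstEntry u * g) / k with hbdef
    refine ⟨b, a, ha, hb, hn, ?_, (a + fstEntry u * g) % k, (k * a + sndEntry u - b) / g,
      Nat.mod_lt _ hk, hs, hv.symm, ?_, ?_⟩
    · unfold Nat.ModEq
      rw [hm, Nat.mod_eq_of_lt hb]
    · have := Nat.div_add_mod (a + fstEntry u * g) k
      rw [← hbdef] at this
      zify at this
      push_cast
      linarith
    · have hle : b ≤ k * a + sndEntry u := by
        rw [← hm]; exact Nat.mod_le _ _
      have hdvd : g ∣ k * a + sndEntry u - b := by
        rw [← hm]; exact Nat.dvd_sub_mod _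
      have h3 : ((((k * a + sndEntry u - b) / g) * g : ℕ) : ℤ) =
          ((k * a + sndEntry u - b : ℕ) : ℤ) := by rw [Nat.div_mul_cancel hdvd]
      rw [Nat.cast_mul, Nat.cast_sub hle, Nat.cast_add, Nat.cast_mul] at h3
      exact h3

/-- Description of `H(g,k)` by a finite table. -/
theorem inH_iff {g k n : ℕ} (hk : 0 < k) (hg : 0 < g) (nd : Fin (n + 1) → Node)
    (T : Fin (n + 1) → List (Fin (n + 1))) (h0 : nd 0 = none)
    (hT : ∀ i, outs g k (nd i) = (T i).map nd)
    (hpre : ∀ i, i ≠ 0 → ∃ j, j < i ∧ i ∈ T j) (v : Node) :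
    InH g k v ↔ ∃ i, v = nd i := by
  constructor
  · intro h
    induction h with
    | refl => exact ⟨0, h0.symm⟩
    | tail _ hbc ih =>
      obtain ⟨i, rfl⟩ := ih
      rw [edge_iff hk hg, hT, List.mem_map] at hbc
      obtain ⟨j, _, rfl⟩ := hbc
      exact ⟨j, rfl⟩
  · rintro ⟨i, rfl⟩
    induction i using WellFoundedLT.induction with
    | ind i ih =>
      by_cases hi : i = 0
      · subst hi
        rw [h0]
        exact Relation.ReflTransGen.refl
      · obtain ⟨j, hj, hij⟩ := hpre i hi
        refine Relation.ReflTransGen.tail (ih j hj) ?_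
        rw [edge_iff hk hg, hT, List.mem_map]
        exact ⟨i, hij, rfl⟩

/-- A rank function decreasing along some out-edge shows that the target is reachable. -/
theorem reaches_of_rank {g k n : ℕ} (hk : 0 < k) (hg : 0 < g) (nd : Fin (n + 1) → Node)
    (T : Fin (n + 1) → List (Fin (n + 1)))
    (hT : ∀ i, outs g k (nd i) = (T i).map nd) (p : Fin (n + 1)) (d : Fin (n + 1) → ℕ)
    (Y : Fin (n + 1) → Bool)
    (hd : ∀ i, Y i = true → i = p ∨ ∃ j, j ∈ T i ∧ Y j = true ∧ d j < d i) :
    ∀ i, Y i = true → Reaches g k (nd i) (nd p) := by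
  intro i
  induction h : d i using Nat.strong_induction_on generalizing i with
  | _ m ih =>
    intro hY
    rcases hd i hY with rfl | ⟨j, hj, hYj, hlt⟩
    · exact Relation.ReflTransGen.refl
    · refine Relation.ReflTransGen.head ?_ (ih (d j) (h ▸ hlt) j rfl hYj)
      rw [edge_iff hk hg, hT, List.mem_map]
      exact ⟨j, hj, rfl⟩

end Pool.Agent.Lib.MP_5fcb94_co
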