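import Mathlib

/-!
Young graphs of reverse multiples (problem MP_5fcb94_co).
-/

namespace Pool.Agent.Lib.MP_5fcb94_co

/-- Nodes. `none` is the starting node `[[0,0]]`, and `some (r', r)` is the ordinary node `[r', r]`. -/
abbrev Node := Option (ℕ × ℕ)

/-- The entry `r'` of a node; the starting node counts as `r' = r = 0`. -/
def fstEntry : Node → ℕ
  | none => 0
  | some p => p.1

/-- The entry `r` of a node; the starting node counts as `r' = r = 0`. -/
def sndEntry : Node → ℕ
  | none => 0
  | some p => p.2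

/-- There is an edge `u → v` labelled `(b, a)`: here `a, b` are digits below `g` (both at least `1`
if `u` is the starting node), `k a + r ≡ b (mod g)`, and `v` is the ordinary node `[t, s]` with
`t = a + r' g - k b`, `0 ≤ t < k`, and `s = (k a + r - b) / g`. -/
def LabelledEdge (g k : ℕ) (u v : Node) (b a : ℕ) : Prop :=
  a < g ∧ b < g ∧ (u = none → 1 ≤ a ∧ 1 ≤ b) ∧
  k * a + sndEntry u ≡ b [MOD g] ∧
  ∃ t s : ℕ, t < k ∧ s < k ∧ v = some (t, s) ∧
    (t : ℤ) = (a : ℤ) + (fstEntry u : ℤ) * (g : ℤ) - (k : ℤ) * (b : ℤ) ∧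
    (s : ℤ) * (g : ℤ) = (k : ℤ) * (a : ℤ) + (sndEntry u : ℤ) - (b : ℤ)

/-- The directed edge relation, labels forgotten. -/
def Edge (g k : ℕ) (u v : Node) : Prop := ∃ b a : ℕ, LabelledEdge g k u v b a

/-- `v` can be reached from `u` by a (possibly empty) directed walk. -/
def Reaches (g k : ℕ) (u v : Node) : Prop := Relation.ReflTransGen (Edge g k) u v

/-- The nodes of `H(g,k)`: those reachable from the starting node. -/
def InH (g k : ℕ) (v : Node) : Prop := Reaches g k none v

/-- Even pivot nodes of `H(g,k)`: ordinary nodes `[r, r]`, including `[0, 0]`. -/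
def EvenPivot (g k : ℕ) (v : Node) : Prop := InH g k v ∧ ∃ r : ℕ, v = some (r, r)

/-- Odd pivot nodes of `H(g,k)`: ordinary nodes `[r, r]` carrying a loop, and ordinary nodes
`[r', r]` with `r' ≠ r` that have an edge to `[r, r']`. -/
def OddPivot (g k : ℕ) (v : Node) : Prop :=
  InH g k v ∧ ((∃ r : ℕ, v = some (r, r) ∧ Edge g k v v) ∨
    (∃ r' r : ℕ, r' ≠ r ∧ v = some (r', r) ∧ Edge g k (some (r', r)) (some (r, r'))))

/-- The `(g,k)` Young graph exists if `H(g,k)` contains a pivot node other than `[0,0]`. -/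
def YoungExists (g k : ℕ) : Prop :=
  ∃ v : Node, (EvenPivot g k v ∨ OddPivot g k v) ∧ v ≠ some (0, 0)

/-- The nodes of the `(g,k)` Young graph: the nodes of `H(g,k)` from which some pivot node is
reachable. Its edges are all edges of `H(g,k)` between such nodes. -/
def YoungNode (g k : ℕ) : Type :=
  {v : Node // InH g k v ∧ ∃ p : Node, (EvenPivot g k p ∨ OddPivot g k p) ∧ Reaches g k v p}

/-- `e` is an isomorphism of the underlying directed graphs of the two Young graphs. -/
def IsDigraphIso (g k g' k' : ℕ) (e : YoungNode g k ≃ YoungNode g' k') : Prop :=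
  ∀ u v : YoungNode g k, Edge g k u.1 v.1 ↔ Edge g' k' (e u).1 (e v).1

/-- `e` maps the even pivot nodes onto the even pivot nodes and the odd pivot nodes onto the odd
pivot nodes. -/
def PreservesPivots (g k g' k' : ℕ) (e : YoungNode g k ≃ YoungNode g' k') : Prop :=
  (∀ u : YoungNode g k, EvenPivot g k u.1 ↔ EvenPivot g' k' (e u).1) ∧
  (∀ u : YoungNode g k, OddPivot g k u.1 ↔ OddPivot g' k' (e u).1)

end Pool.Agent.Lib.MP_5fcb94_co
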