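import Pool.Agent.Lib.MP_5fcb94_co.Basic

namespace Pool.Agent.Lib.MP_5fcb94_co

/-- nodes of `H(846,265)`; the last one is deleted in the Young graph -/
def nd1 : Fin 11 → Node :=
  ![none, some (150, 213), some (231, 0), some (33, 187), some (12, 131), some (131, 12),
    some (187, 33), some (0, 231), some (213, 150), some (0, 0), some (198, 44)]

/-- adjacency lists of `H(846,265)` -/
def T1 : Fin 11 → List (Fin 11) :=
  ![[1], [2, 3], [4], [5], [6], [10, 7], [8], [8], [9, 1], [9, 1], []]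

/-- nodes of `H(761,401)` -/
def nd2 : Fin 10 → Node :=
  ![none, some (193, 313), some (388, 148), some (13, 373), some (298, 298), some (148, 148),
    some (148, 388), some (373, 13), some (313, 193), some (0, 0)]

/-- adjacency lists of `H(761,401)` -/
def T2 : Fin 10 → List (Fin 10) :=
  ![[1], [2, 3], [4], [5], [6], [7], [8], [8], [9, 1], [9, 1]]

theorem hT1 : ∀ i, outs 846 265 (nd1 i) = (T1 i).map nd1 := by
  decide +kernel

theorem hT2 : ∀ i, outs 761 401 (nd2 i) = (T2 i).map nd2 := by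
  decide +kernel

theorem inH1 (v : Node) : InH 846 265 v ↔ ∃ i, v = nd1 i :=
  inH_iff (by norm_num) (by norm_num) nd1 T1 rfl hT1 (by decide) v

theorem inH2 (v : Node) : InH 761 401 v ↔ ∃ i, v = nd2 i :=
  inH_iff (by norm_num) (by norm_num) nd2 T2 rfl hT2 (by decide) v

theorem nd1_inj : ∀ i j, nd1 i = nd1 j → i = j := by decide
theorem nd2_inj : ∀ i j, nd2 i = nd2 j → i = j := by decide

theorem edge1 (i j : Fin 11) : Edge 846 265 (nd1 i) (nd1 j) ↔ j ∈ T1 i := by
  rw [edge_iff (by norm_num) (by norm_num), hT1, List.mem_map]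
  constructor
  · rintro ⟨l, hl, h⟩
    rwa [← nd1_inj _ _ h]
  · intro h
    exact ⟨j, h, rfl⟩

theorem edge2 (i j : Fin 10) : Edge 761 401 (nd2 i) (nd2 j) ↔ j ∈ T2 i := by
  rw [edge_iff (by norm_num) (by norm_num), hT2, List.mem_map]
  constructor
  · rintro ⟨l, hl, h⟩
    rwa [← nd2_inj _ _ h]
  · intro h
    exact ⟨j, h, rfl⟩

theorem odd1 : OddPivot 846 265 (nd1 8) := by
  refine ⟨(inH1 _).2 ⟨8, rfl⟩, Or.inr ⟨213, 150, by norm_num, rfl, ?_⟩⟩
  exact (edge1 8 1).2 (by decide)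

theorem odd2 : OddPivot 761 401 (nd2 8) := by
  refine ⟨(inH2 _).2 ⟨8, rfl⟩, Or.inr ⟨313, 193, by norm_num, rfl, ?_⟩⟩
  exact (edge2 8 1).2 (by decide)

theorem exists1 : YoungExists 846 265 := ⟨nd1 8, Or.inr odd1, by decide⟩
theorem exists2 : YoungExists 761 401 := ⟨nd2 8, Or.inr odd2, by decide⟩

theorem reach1 : ∀ i, decide (i ≠ 10) = true → Reaches 846 265 (nd1 i) (nd1 8) :=
  reaches_of_rank (by norm_num) (by norm_num) nd1 T1 hT1 8
    ![5, 4, 3, 3, 2, 2, 1, 1, 0, 5, 9] _ (by decide)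

theorem reach2 : ∀ i, true = true → Reaches 761 401 (nd2 i) (nd2 8) :=
  reaches_of_rank (by norm_num) (by norm_num) nd2 T2 hT2 8
    ![5, 4, 3, 3, 2, 2, 1, 1, 0, 5] (fun _ => true) (by decide)

theorem reaches_last {p : Node} (h : Reaches 846 265 (nd1 10) p) : p = nd1 10 := by
  induction h with
  | refl => rfl
  | tail _ hbc ih =>
    rw [ih, edge_iff (by norm_num) (by norm_num), hT1] at hbc
    exact absurd hbc (by simp [T1])

theorem not_pivot_last : ¬ (EvenPivot 846 265 (nd1 10) ∨ OddPivot 846 265 (nd1 10)) := by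
  have key : ∀ w : Node, ¬ Edge 846 265 (nd1 10) w := by
    intro w hw
    rw [edge_iff (by norm_num) (by norm_num), hT1] at hw
    exact absurd hw (by simp [T1])
  rintro (⟨_, r, hr⟩ | ⟨_, ⟨r, hr, he⟩ | ⟨r', r, _, hr, he⟩⟩)
  · have h1 : ((198 : ℕ), (44 : ℕ)) = (r, r) := Option.some.inj hr
    have h2 := congrArg Prod.fst h1
    have h3 := congrArg Prod.snd h1
    simp only at h2 h3
    omega
  · exact key _ he
  · rw [← hr] at he
    exact key _ he

/-- the ten nodes of the first Young graph -/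
theorem young1 (v : Node) :
    (InH 846 265 v ∧ ∃ p : Node, (EvenPivot 846 265 p ∨ OddPivot 846 265 p) ∧
      Reaches 846 265 v p) ↔ ∃ i : Fin 10, v = nd1 i.castSucc := by
  rw [inH1]
  constructor
  · rintro ⟨⟨i, rfl⟩, p, hp, hr⟩
    rcases Fin.eq_castSucc_or_eq_last i with ⟨j, rfl⟩ | rfl
    · exact ⟨j, rfl⟩
    · have := reaches_last hr
      subst this
      exact absurd hp not_pivot_last
  · rintro ⟨i, rfl⟩
    refine ⟨⟨i.castSucc, rfl⟩, nd1 8, Or.inr odd1, reach1 _ ?_⟩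
    revert i
    decide

theorem young2 (v : Node) :
    (InH 761 401 v ∧ ∃ p : Node, (EvenPivot 761 401 p ∨ OddPivot 761 401 p) ∧
      Reaches 761 401 v p) ↔ ∃ i : Fin 10, v = nd2 i := by
  rw [inH2]
  constructor
  · rintro ⟨⟨i, rfl⟩, p, hp, hr⟩
    exact ⟨i, rfl⟩
  · rintro ⟨i, rfl⟩
    exact ⟨⟨i, rfl⟩, nd2 8, Or.inr odd2, reach2 _ rfl⟩

/-- the ten nodes of the first Young graph as an equivalence -/
noncomputable def eqv1 : Fin 10 ≃ YoungNode 846 265 :=
  Equiv.ofBijective (fun i => ⟨nd1 i.castSucc, (young1 _).2 ⟨i, rfl⟩⟩) <| by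
    constructor
    · intro i j h
      have h' : nd1 i.castSucc = nd1 j.castSucc := congrArg Subtype.val h
      exact Fin.castSucc_injective _ (nd1_inj _ _ h')
    · rintro ⟨v, hv⟩
      obtain ⟨i, rfl⟩ := (young1 v).1 hv
      exact ⟨i, rfl⟩

/-- the ten nodes of the second Young graph as an equivalence -/
noncomputable def eqv2 : Fin 10 ≃ YoungNode 761 401 :=
  Equiv.ofBijective (fun i => ⟨nd2 i, (young2 _).2 ⟨i, rfl⟩⟩) <| by
    constructor
    · intro i j h
      have h' : nd2 i = nd2 j := congrArg Subtype.val h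
      exact nd2_inj _ _ h'
    · rintro ⟨v, hv⟩
      obtain ⟨i, rfl⟩ := (young2 v).1 hv
      exact ⟨i, rfl⟩

theorem eqv1_val (i : Fin 10) : (eqv1 i).1 = nd1 i.castSucc := rfl
theorem eqv2_val (i : Fin 10) : (eqv2 i).1 = nd2 i := rfl

theorem iso12 : IsDigraphIso 846 265 761 401 (eqv1.symm.trans eqv2) := by
  intro u v
  obtain ⟨i, rfl⟩ := eqv1.surjective u
  obtain ⟨j, rfl⟩ := eqv1.surjective v
  simp only [Equiv.trans_apply, Equiv.symm_apply_apply, eqv1_val, eqv2_val, edge1, edge2]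
  revert i j
  decide

theorem even1 {v : Node} (h : EvenPivot 846 265 v) : v = some (0, 0) := by
  obtain ⟨h, r, rfl⟩ := h
  obtain ⟨i, hi⟩ := (inH1 _).1 h
  have key : ∀ i : Fin 11, fstEntry (nd1 i) = sndEntry (nd1 i) → i = 0 ∨ nd1 i = some (0, 0) := by
    decide
  have h2 := key i (by rw [← hi]; rfl)
  rcases h2 with rfl | h2
  · exact absurd hi (by simp [nd1])
  · rw [hi, h2]

theorem no_iso : ¬ ∃ e : YoungNode 846 265 ≃ YoungNode 761 401,
    IsDigraphIso 846 265 761 401 e ∧ PreservesPivots 846 265 761 401 e := by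
  rintro ⟨e, _, he, _⟩
  have h4 : EvenPivot 761 401 (eqv2 4).1 := ⟨(inH2 _).2 ⟨4, rfl⟩, 298, rfl⟩
  have h5 : EvenPivot 761 401 (eqv2 5).1 := ⟨(inH2 _).2 ⟨5, rfl⟩, 148, rfl⟩
  have a4 := even1 ((he (e.symm (eqv2 4))).2 (by rw [Equiv.apply_symm_apply]; exact h4))
  have a5 := even1 ((he (e.symm (eqv2 5))).2 (by rw [Equiv.apply_symm_apply]; exact h5))
  have h := e.symm.injective (Subtype.ext (a4.trans a5.symm))
  exact absurd (eqv2.injective h) (by decide)

end Pool.Agent.Lib.MP_5fcb94_co
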